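import Mathlib
import Pool.Agent.H49.Asym.Kst

set_option autoImplicit false

/-!
# Asymmetric and symmetric Turán numbers of gluings (MP_51d945_co)

An `Ordered` graph `L` is a bipartite graph with an ordered bipartition (`left u = true` for the
vertices of the first class); `L.rev` is the same graph with the classes exchanged. `exStar n L` is
`ex* (n, L)` of the question, the largest number of edges of a bipartite graph with two classes of
`n` vertices without an ordered copy of `L`, and `Question L` says `ex* (n, L) = O (ex (n, L))`.

`IsGluing J H m F`: the ordered graph `F` is obtained from `J` by gluing the blocks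
`H 0, …, H (m - 1)` one after the other; each block meets the union of the graphs before it in at
most one vertex, or exactly in the two ends of an edge of both, and the classes are respected. The
blocks are connected, have an edge, and their automorphisms which keep the classes act transitively
on the edges (complete bipartite graphs, even cycles, cubes, the incidence graphs of flag
transitive geometries, …); at least one of them has all degrees at least two.

* (1) `ex* (n, F)` is `ex* (n, J)` plus the `ex* (n, H i)`, up to a constant factor.
* (2) Let `F` be connected. If each of the pieces `P = J, H 0, …, H (m - 1)` satisfies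
  `ex* (n, P) = O (ex (n, P))`, or is contained in `F` also with the classes exchanged, then
  `ex* (n, F) = O (ex (n, F))`.
* (3) Let `L` be any bipartite graph, and let `F` be a connected gluing of pieces which are
  contained in `L` or in `L.rev`, such that `F` contains `L` and `L.rev`. Then the question has a
  positive answer for `F`, `ex (n, F)` has the order of magnitude of `ex* (n, L)`, and the question
  for `L` is equivalent to `ex (n, F) = O (ex (n, L))`.
* (4) So the question has a positive answer for all connected gluings of complete bipartite graphs
  such that for each block `K (s, t)` some block contains `K (t, s)`. For example for `K (4, 5)` and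
  `K (5, 4)` with a common edge, although it is open for `K (4, 5)`; the order of magnitude is not
  known.

Proof. As long as there is an edge `x y` and a block `H i` such that all ordered copies of `H i`
through `x y` meet a set `T` of at most `|F|` other vertices, delete `x y`, and call `i` its type.
The graph that remains contains an ordered copy of `F` as soon as it contains one of `J`: the copies
of the blocks can be chosen greedily, away from the vertices used before. In a random colouring of
the vertices with `2 |F|` colours consider the deleted edges of type `i` such that both ends have the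
same colour and no vertex of the set `T` has this colour. They contain no ordered copy of `H i`: the
edge of the copy that was deleted first has a vertex of the copy in its set `T`.
If `F` contains a piece in both orders, then a bipartite graph without an ordered copy of this piece
contains no copy of `F` at all.
-/

open SimpleGraph

namespace Pool.Agent.Results.MP_51d945_co.GluingsInBothOrders

open Pool.Agent.H49.Asym

/-- The blocks `H 0, …, H (m - 1)` are connected, have an edge at every vertex, and the
automorphisms which keep the classes act transitively on their edges; at least one block has all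
degrees at least two. -/
def Blocks {W : ℕ → Type} (H : ∀ i, Ordered (W i)) (m : ℕ) : Prop :=
  (∀ i < m, (H i).graph.Connected ∧ (∀ a, ∃ b, (H i).graph.Adj a b) ∧ EdgeTransitive (H i)) ∧
    ∃ i < m, DegreesTwo (H i)

/-- **Turán numbers of gluings with ordered classes.** -/
theorem result :
    (∀ (U S : Type) [Finite U] [Nonempty S] (W : ℕ → Type) (J : Ordered S)
      (H : ∀ i, Ordered (W i)) (m : ℕ) (F : Ordered U), Blocks H m →
      (∀ s, ∃ t, J.graph.Adj s t) → IsGluing J H m F →
      -- (1) the order of magnitude of `ex*`
      (∀ n, exStar n J ≤ exStar n F ∧ (∀ i < m, exStar n (H i) ≤ exStar n F) ∧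
        exStar n F ≤ exStar n J + 4 * Nat.card U * ∑ i ∈ Finset.range m, exStar n (H i)) ∧
      -- (2) the question
      (F.graph.Connected → (Question J ∨ Contains F J.rev) →
        (∀ i < m, Question (H i) ∨ Contains F (H i).rev) → Question F) ∧
      -- (3) pieces of one graph in both orders
      (∀ (T : Type) (L : Ordered T), F.graph.Connected →
        (Contains L J ∨ Contains L.rev J) →
        (∀ i < m, Contains L (H i) ∨ Contains L.rev (H i)) →
        Contains F L → Contains F L.rev →
        Question F ∧ (∀ n, 2 ≤ n → exStar n L ≤ 6 * extremalNumber n F.graph) ∧
        (∀ n, extremalNumber n F.graph ≤ 2 * (1 + 4 * Nat.card U * m) * exStar n L) ∧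
        (Question L ↔ ∃ C : ℝ, ∃ N : ℕ, ∀ n : ℕ, N ≤ n →
          (extremalNumber n F.graph : ℝ) ≤ C * (extremalNumber n L.graph : ℝ)))) ∧
    -- (4) complete bipartite blocks
    (∀ (U : Type) [Finite U] (m : ℕ) (s t : ℕ → ℕ) (F : Ordered U),
      (∀ i < m, 1 ≤ s i ∧ 1 ≤ t i) → (∃ i < m, 2 ≤ s i ∧ 2 ≤ t i) →
      (∀ i < m, ∃ j < m, t i ≤ s j ∧ s i ≤ t j) →
      IsGluing (Kst 1 1) (fun i => Kst (s i) (t i)) m F → F.graph.Connected → Question F) := by
  refine ⟨?_, ?_⟩
  · intro U S _ _ W J H m F hB hJ hF
    obtain ⟨hB1, hB2⟩ := hB
    have hW : ∀ i < m, Nonempty (W i) := fun i hi => (hB1 i hi).1.nonempty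
    have hc : ∀ i < m, (H i).graph.Preconnected := fun i hi => (hB1 i hi).1.preconnected
    have hiso : ∀ i < m, ∀ a, ∃ b, (H i).graph.Adj a b := fun i hi => (hB1 i hi).2.1
    have harc : ∀ i < m, EdgeTransitive (H i) := fun i hi => (hB1 i hi).2.2
    refine ⟨fun n => ⟨(gluing_contains_skeleton hF).exStar_le n,
      fun i hi => (gluing_contains_block hF hi).exStar_le n,
      exStar_gluing hW hc harc hiso hB2 hJ F hF n⟩, ?_, ?_⟩
    · intro hFc h1 h2
      exact question_gluing hW hc harc hiso hB2 hJ F hF hFc.preconnected h1 h2
    · intro T L hFc h1 h2 h3 h4
      obtain ⟨p1, _, p3, p4, p5⟩ := both_orders hW hc harc hiso hB2 hJ F hF hFc.preconnected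
        h1 h2 h3 h4
      exact ⟨p4, p1, p3, p5⟩
  · intro U _ m s t F hs h2 hrev hF hFc
    exact complete_blocks m s t hs h2 hrev F hF hFc.preconnected

end Pool.Agent.Results.MP_51d945_co.GluingsInBothOrders
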